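import Mathlib

/-!
# MP_e16c79_al: the linearization of `x ^ n = 0`
-/

set_option autoImplicit false

namespace Pool.Agent.H.MP_e16c79_al.HS

open Finset

section vand

variable {M : Type*} [AddCommGroup M]

/-- a polynomial of degree at most `n` which vanishes at `0, ..., n` -/
theorem vand (n : ℕ) (tf : ∀ d : ℕ, 1 ≤ d → d ≤ n → ∀ r : M, (d : ℤ) • r = 0 → r = 0)
    (c : Fin (n + 1) → M)
    (h : ∀ i : Fin (n + 1), ∑ j : Fin (n + 1), ((i : ℕ) : ℤ) ^ (j : ℕ) • c j = 0)
    (k : Fin (n + 1)) : c k = 0 := by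
  have h1 : ∀ i j : Fin (n + 1), Matrix.vandermonde (fun i : Fin (n + 1) => ((i : ℕ) : ℤ)) i j =
      ((i : ℕ) : ℤ) ^ (j : ℕ) := fun i j => rfl
  set V := Matrix.vandermonde (fun i : Fin (n + 1) => ((i : ℕ) : ℤ)) with hV
  have h2 : V.det • c k = 0 := by
    have e1 : ∑ i, V.adjugate k i • ∑ j, V i j • c j = 0 := by
      refine sum_eq_zero fun i _ => ?_
      have := h i
      simp only [h1]
      rw [this, smul_zero]
    have e2 : ∑ i, V.adjugate k i • ∑ j, V i j • c j = ∑ j, (V.adjugate * V) k j • c j := by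
      simp only [smul_sum, Matrix.mul_apply, sum_smul]
      rw [sum_comm]
      refine sum_congr rfl fun j _ => sum_congr rfl fun i _ => ?_
      rw [mul_smul]
    rw [e2, Matrix.adjugate_mul] at e1
    rw [← e1]
    rw [sum_eq_single k]
    · rw [Matrix.smul_apply, Matrix.one_apply_eq, smul_eq_mul, mul_one]
    · intro j _ hj
      rw [Matrix.smul_apply, Matrix.one_apply_ne hj.symm, smul_zero, zero_smul]
    · intro hk
      exact absurd (mem_univ k) hk
  have key : ∀ (s : Finset (Fin (n + 1) × Fin (n + 1))), (∀ p ∈ s, p.1 < p.2) → ∀ r : M,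
      (∏ p ∈ s, (((p.2 : ℕ) : ℤ) - ((p.1 : ℕ) : ℤ))) • r = 0 → r = 0 := by
    intro s
    induction s using Finset.induction_on with
    | empty =>
      intro _ r hr
      rw [prod_empty, one_smul] at hr
      exact hr
    | insert a s ha ih =>
      intro hs r hr
      rw [prod_insert ha, mul_comm, mul_smul] at hr
      have hlt := hs a (mem_insert_self a s)
      have h3 := ih (fun p hp => hs p (mem_insert_of_mem hp)) _ hr
      have h4 : ((a.2 : ℕ) : ℤ) - ((a.1 : ℕ) : ℤ) = (((a.2 : ℕ) - (a.1 : ℕ) : ℕ) : ℤ) := by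
        have : (a.1 : ℕ) ≤ (a.2 : ℕ) := le_of_lt hlt
        push_cast [Nat.cast_sub this]
        ring
      rw [h4] at h3
      have h5 : (a.1 : ℕ) < (a.2 : ℕ) := hlt
      have h6 := a.2.2
      exact tf _ (by omega) (by omega) r h3
  rw [hV, Matrix.det_vandermonde, prod_sigma'] at h2
  have h7 := key ((univ.sigma fun i : Fin (n + 1) => Ioi i).image fun p => (p.1, p.2)) (by
    intro p hp
    obtain ⟨q, hq, rfl⟩ := mem_image.1 hp
    exact mem_Ioi.1 (mem_sigma.1 hq).2) (c k)
  rw [prod_image] at h7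
  · exact h7 h2
  · intro p _ q _ hpq
    have e1 : p.1 = q.1 := congrArg Prod.fst hpq
    have e2 : p.2 = q.2 := congrArg Prod.snd hpq
    exact Sigma.ext e1 (heq_of_eq e2)

end vand

section cf

variable {R : Type*} [Ring R] (x h : R)

/-- coefficients of `(x + t h) ^ n` -/
def cf : ℕ → ℕ → R
  | 0, 0 => 1
  | 0, _ + 1 => 0
  | n + 1, 0 => cf n 0 * x
  | n + 1, k + 1 => cf n (k + 1) * x + cf n k * h

theorem cf_big (n k : ℕ) (hk : n < k) : cf x h n k = 0 := by
  induction n generalizing k with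
  | zero =>
    obtain ⟨l, rfl⟩ : ∃ l, k = l + 1 := ⟨k - 1, by omega⟩
    rfl
  | succ n ih =>
    obtain ⟨l, rfl⟩ : ∃ l, k = l + 1 := ⟨k - 1, by omega⟩
    show cf x h n (l + 1) * x + cf x h n l * h = 0
    rw [ih _ (by omega), ih _ (by omega), zero_mul, zero_mul, add_zero]

theorem cf_zero (n : ℕ) : cf x h n 0 = x ^ n := by
  induction n with
  | zero =>
    rw [pow_zero]
    rfl
  | succ n ih =>
    show cf x h n 0 * x = _
    rw [ih, pow_succ]

theorem cf_one (n : ℕ) : cf x h (n + 1) 1 = ∑ p ∈ antidiagonal n, x ^ p.1 * h * x ^ p.2 := by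
  induction n with
  | zero =>
    show (0 : R) * x + 1 * h = _
    simp
  | succ n ih =>
    show cf x h (n + 1) 1 * x + cf x h (n + 1) 0 * h = _
    rw [ih, cf_zero, Finset.Nat.sum_antidiagonal_succ', sum_mul, pow_zero, mul_one, add_comm]
    congr 1
    refine sum_congr rfl fun p _ => ?_
    simp only [pow_succ, mul_assoc]

theorem cf_sum (n : ℕ) (t : ℤ) :
    (x + t • h) ^ n = ∑ k ∈ range (n + 1), t ^ k • cf x h n k := by
  induction n with
  | zero =>
    rw [pow_zero, sum_range_one, pow_zero, one_smul]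
    rfl
  | succ n ih =>
    rw [pow_succ, ih, mul_add, sum_range_succ' (n := n + 1)]
    have e1 : (∑ k ∈ range (n + 1), t ^ k • cf x h n k) * x =
        ∑ k ∈ range (n + 1), t ^ (k + 1) • (cf x h n (k + 1) * x) + cf x h n 0 * x := by
      have e2 : ∑ k ∈ range (n + 1), t ^ k • cf x h n k =
          ∑ k ∈ range (n + 1 + 1), t ^ k • cf x h n k := by
        rw [sum_range_succ _ (n + 1), cf_big x h n (n + 1) (by omega), smul_zero, add_zero]
      rw [e2, sum_range_succ' (n := n + 1), pow_zero, one_smul, add_mul, sum_mul]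
      congr 1
      refine sum_congr rfl fun k _ => ?_
      rw [smul_mul_assoc]
    have e3 : (∑ k ∈ range (n + 1), t ^ k • cf x h n k) * (t • h) =
        ∑ k ∈ range (n + 1), t ^ (k + 1) • (cf x h n k * h) := by
      rw [sum_mul]
      refine sum_congr rfl fun k _ => ?_
      rw [smul_mul_smul_comm, pow_succ]
    rw [e1, e3, pow_zero, one_smul]
    have e4 : ∀ k, cf x h (n + 1) (k + 1) = cf x h n (k + 1) * x + cf x h n k * h := fun _ => rfl
    have e5 : cf x h (n + 1) 0 = cf x h n 0 * x := rfl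
    simp only [e4, e5, smul_add, sum_add_distrib]
    abel

/-- linearization -/
theorem lin {J : AddSubgroup R} (m : ℕ)
    (tf : ∀ d : ℕ, 1 ≤ d → d ≤ m + 1 → ∀ r : R, (d : ℤ) • r = 0 → r = 0)
    (nil : ∀ y ∈ J, y ^ (m + 1) = 0) {x h : R} (hx : x ∈ J) (hh : h ∈ J) :
    ∑ p ∈ antidiagonal m, x ^ p.1 * h * x ^ p.2 = 0 := by
  rw [← cf_one]
  refine vand (m + 1) tf (fun k => cf x h (m + 1) k) (fun i => ?_) 1
  have e := cf_sum x h (m + 1) ((i : ℕ) : ℤ)
  rw [nil _ (J.add_mem hx (J.zsmul_mem hh _))] at e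
  rw [← Fin.sum_univ_eq_sum_range (fun k => (((i : ℕ) : ℤ)) ^ k • cf x h (m + 1) k)] at e
  exact e.symm

end cf

end Pool.Agent.H.MP_e16c79_al.HS
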