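import Mathlib

/-!
# MP_e16c79_al: rings with involution in which the symmetric elements are nil of bounded index
-/

set_option autoImplicit false

namespace Pool.Agent.H.MP_e16c79_al.HS

/-- The data: `B` is an ideal of the ring `R` with involution, stable under the involution; `J` is a
group of symmetric elements of `B` which contains all `u + star u`, `u ∈ B`; `x ^ n = 0` for `x ∈ J`. -/
structure Data {R : Type*} [Ring R] [StarRing R] (n : ℕ) (B J : AddSubgroup R) : Prop where
  left : ∀ r : R, ∀ b ∈ B, r * b ∈ B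
  right : ∀ b ∈ B, ∀ r : R, b * r ∈ B
  star : ∀ b ∈ B, star b ∈ B
  le : J ≤ B
  sym : ∀ x ∈ J, Star.star x = x
  tr : ∀ u ∈ B, u + Star.star u ∈ J
  nil : ∀ x ∈ J, x ^ n = 0
  tf : ∀ r : R, ((2 * n.factorial : ℕ) : ℤ) • r = 0 → r = 0

end Pool.Agent.H.MP_e16c79_al.HS
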