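import Pool.Agent.H.MP_e16c79_al.HS.Core
import Pool.Agent.H.MP_e16c79_al.HS.Pol
import Pool.Agent.H.MP_e16c79_al.HS.Defs

/-!
# MP_e16c79_al: the main identity for the data
-/

set_option autoImplicit false

namespace Pool.Agent.H.MP_e16c79_al.HS

variable {R : Type*} [Ring R] [StarRing R] {n : ℕ} {B J : AddSubgroup R}

theorem Data.small (h : Data n B J) (d : ℕ) (h1 : 1 ≤ d) (h2 : d ≤ n) (r : R)
    (hr : (d : ℤ) • r = 0) : r = 0 := by
  refine h.tf r ?_
  obtain ⟨e, he⟩ := Nat.dvd_factorial h1 h2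
  have h3 : ((2 * n.factorial : ℕ) : ℤ) = ((2 * e : ℕ) : ℤ) * (d : ℤ) := by
    rw [he]
    push_cast
    ring
  rw [h3, mul_smul, hr, smul_zero]

theorem Data.pow_mem (h : Data n B J) {x : R} (hx : x ∈ B) (i : ℕ) (hi : i ≠ 0) : x ^ i ∈ B := by
  obtain ⟨j, rfl⟩ : ∃ j, i = j + 1 := ⟨i - 1, by omega⟩
  rw [pow_succ]
  exact h.left _ x hx

/-- the system attached to the data -/
def Data.toSys {m : ℕ} (h : Data (m + 1) B J) : Sys R m where
  J := J
  B := B
  starJ := h.sym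
  starB := h.star
  JB := fun x _ b hb => h.left x b hb
  BB := fun a _ b hb => h.left a b hb
  sym := h.tr
  tri := by
    intro x hx y hy z hz i j k hijk
    have sx : Star.star (x ^ i) = x ^ i := by rw [star_pow, h.sym x hx]
    have sy : Star.star (y ^ j) = y ^ j := by rw [star_pow, h.sym y hy]
    have sz : Star.star (z ^ k) = z ^ k := by rw [star_pow, h.sym z hz]
    have e : Star.star (x ^ i * y ^ j * z ^ k) = z ^ k * y ^ j * x ^ i := by
      rw [star_mul, star_mul, sx, sy, sz, mul_assoc]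
    rw [← e]
    refine h.tr _ ?_
    by_cases h1 : i = 0
    · by_cases h2 : j = 0
      · exact h.left _ _ (h.pow_mem (h.le hz) k (by omega))
      · exact h.right _ (h.left _ _ (h.pow_mem (h.le hy) j h2)) _
    · exact h.right _ (h.right _ (h.pow_mem (h.le hx) i h1) _) _
  nil := fun x hx u hu => lin m h.small h.nil hx hu

/-- THE MAIN IDENTITY -/
theorem core (hn : 1 ≤ n) (h : Data n B J) {x y z w a b c : R} (hx : x ∈ J) (hy : y ∈ J)
    (hz : z ∈ J) (hw : w ∈ J) (ha : a ∈ B) (hb : b ∈ B) (hc : c ∈ B) :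
    x ^ (n - 1) * a * y ^ (n - 1) * b * z ^ (n - 1) * c * w ^ (n - 1) = 0 := by
  obtain ⟨m, rfl⟩ : ∃ m, n = m + 1 := ⟨n - 1, by omega⟩
  rw [Nat.add_sub_cancel]
  have h1 := h.toSys.main (a := a) (b := b) (c := c) hx hy hz hw ha hb hc
  refine h.tf _ ?_
  have e : ((2 * (m + 1).factorial : ℕ) : ℤ) = ((m.factorial : ℕ) : ℤ) * ((2 * (m + 1) : ℕ) : ℤ) := by
    rw [Nat.factorial_succ]
    push_cast
    ring
  rw [e, mul_smul, natCast_zsmul _ (2 * (m + 1)), h1, smul_zero]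

end Pool.Agent.H.MP_e16c79_al.HS
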