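import Mathlib

/-!
# MP_e16c79_al: a Nagata-Higman theorem for symmetric elements, the main identity

`x ^ m * a * y ^ m * b * z ^ m * c * w ^ m = 0` for symmetric `x, y, z, w`.
-/

set_option autoImplicit false

namespace Pool.Agent.H.MP_e16c79_al.HS

open Finset

/-- the setting: `J` consists of symmetric elements, `B` is the space of labels -/
structure Sys (R : Type*) [Ring R] [StarRing R] (m : ℕ) where
  J : AddSubgroup R
  B : AddSubgroup R
  starJ : ∀ x ∈ J, star x = x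
  starB : ∀ b ∈ B, star b ∈ B
  JB : ∀ x ∈ J, ∀ b ∈ B, x * b ∈ B
  BB : ∀ a ∈ B, ∀ b ∈ B, a * b ∈ B
  sym : ∀ b ∈ B, b + star b ∈ J
  tri : ∀ x ∈ J, ∀ y ∈ J, ∀ z ∈ J, ∀ i j k : ℕ, i + j + k ≠ 0 →
    x ^ i * y ^ j * z ^ k + z ^ k * y ^ j * x ^ i ∈ J
  nil : ∀ x ∈ J, ∀ h ∈ J, ∑ p ∈ antidiagonal m, x ^ p.1 * h * x ^ p.2 = 0

namespace Sys

variable {R : Type*} [Ring R] [StarRing R] {m : ℕ} (S : Sys R m)

theorem BJ {x b : R} (hx : x ∈ S.J) (hb : b ∈ S.B) : b * x ∈ S.B := by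
  have h1 := S.starB _ (S.JB x hx _ (S.starB b hb))
  rw [star_mul, star_star, S.starJ x hx] at h1
  exact h1

/-- multipliers of the space of labels -/
def Mu (c : R) : Prop := ∀ b ∈ S.B, c * b ∈ S.B ∧ b * c ∈ S.B

theorem Mu_one : S.Mu 1 := fun b hb => by
  rw [one_mul, mul_one]
  exact ⟨hb, hb⟩

theorem Mu_B {c : R} (hc : c ∈ S.B) : S.Mu c := fun b hb => ⟨S.BB c hc b hb, S.BB b hb c hc⟩

theorem Mu_J {x : R} (hx : x ∈ S.J) : S.Mu x := fun b hb => ⟨S.JB x hx b hb, S.BJ hx hb⟩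

theorem Mu_mul {c d : R} (hc : S.Mu c) (hd : S.Mu d) : S.Mu (c * d) := fun b hb => by
  constructor
  · rw [mul_assoc]
    exact (hc _ (hd b hb).1).1
  · rw [← mul_assoc]
    exact (hd _ (hc b hb).2).2

theorem Mu_pow {x : R} (hx : x ∈ S.J) (i : ℕ) : S.Mu (x ^ i) := by
  induction i with
  | zero =>
    rw [pow_zero]
    exact S.Mu_one
  | succ i ih =>
    rw [pow_succ]
    exact S.Mu_mul ih (S.Mu_J hx)

theorem Mu_star {c : R} (hc : S.Mu c) : S.Mu (star c) := fun b hb => by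
  have h1 := hc _ (S.starB b hb)
  constructor
  · have h2 := S.starB _ h1.2
    rw [star_mul, star_star] at h2
    exact h2
  · have h2 := S.starB _ h1.1
    rw [star_mul, star_star] at h2
    exact h2

theorem star_pow' {x : R} (hx : x ∈ S.J) (i : ℕ) : star (x ^ i) = x ^ i := by
  rw [star_pow, S.starJ x hx]

/-- the move -/
theorem kap {x : R} (hx : x ∈ S.J) (P U Q : R) (hU : U + star U ∈ S.J) :
    ∑ p ∈ antidiagonal m, P * x ^ p.1 * U * x ^ p.2 * Q =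
      - ∑ p ∈ antidiagonal m, P * x ^ p.1 * star U * x ^ p.2 * Q := by
  have h1 := S.nil x hx _ hU
  have h2 : ∑ p ∈ antidiagonal m, P * x ^ p.1 * U * x ^ p.2 * Q +
      ∑ p ∈ antidiagonal m, P * x ^ p.1 * star U * x ^ p.2 * Q =
      P * (∑ p ∈ antidiagonal m, x ^ p.1 * (U + star U) * x ^ p.2) * Q := by
    rw [← sum_add_distrib, mul_sum, sum_mul]
    refine sum_congr rfl fun p _ => ?_
    noncomm_ring
  rw [h1, mul_zero, zero_mul] at h2
  exact eq_neg_of_add_eq_zero_left h2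

end Sys

section sums

variable {R : Type*} [Ring R] {m : ℕ}

/-- triple sums -/
def S3 (m : ℕ) (f : ℕ × ℕ → ℕ × ℕ → ℕ × ℕ → R) : R :=
  ∑ p ∈ antidiagonal m, ∑ q ∈ antidiagonal m, ∑ r ∈ antidiagonal m, f p q r

theorem S3_x {f g : ℕ × ℕ → ℕ × ℕ → ℕ × ℕ → R}
    (h : ∀ q r, ∑ p ∈ antidiagonal m, f p q r = - ∑ p ∈ antidiagonal m, g p q r) :
    S3 m f = - S3 m g := by
  have e : ∀ f : ℕ × ℕ → ℕ × ℕ → ℕ × ℕ → R, S3 m f =
      ∑ q ∈ antidiagonal m, ∑ r ∈ antidiagonal m, ∑ p ∈ antidiagonal m, f p q r := by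
    intro f
    unfold S3
    rw [sum_comm]
    refine sum_congr rfl fun q _ => ?_
    rw [sum_comm]
  rw [e f, e g, ← sum_neg_distrib]
  refine sum_congr rfl fun q _ => ?_
  rw [← sum_neg_distrib]
  exact sum_congr rfl fun r _ => h q r

theorem S3_y {f g : ℕ × ℕ → ℕ × ℕ → ℕ × ℕ → R}
    (h : ∀ p r, ∑ q ∈ antidiagonal m, f p q r = - ∑ q ∈ antidiagonal m, g p q r) :
    S3 m f = - S3 m g := by
  have e : ∀ f : ℕ × ℕ → ℕ × ℕ → ℕ × ℕ → R, S3 m f =
      ∑ p ∈ antidiagonal m, ∑ r ∈ antidiagonal m, ∑ q ∈ antidiagonal m, f p q r := by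
    intro f
    unfold S3
    refine sum_congr rfl fun q _ => ?_
    rw [sum_comm]
  rw [e f, e g, ← sum_neg_distrib]
  refine sum_congr rfl fun q _ => ?_
  rw [← sum_neg_distrib]
  exact sum_congr rfl fun r _ => h q r

theorem S3_z {f g : ℕ × ℕ → ℕ × ℕ → ℕ × ℕ → R}
    (h : ∀ p q, ∑ r ∈ antidiagonal m, f p q r = - ∑ r ∈ antidiagonal m, g p q r) :
    S3 m f = - S3 m g := by
  unfold S3
  rw [← sum_neg_distrib]
  refine sum_congr rfl fun q _ => ?_
  rw [← sum_neg_distrib]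
  exact sum_congr rfl fun r _ => h q r

theorem S3_swap_y (f : ℕ × ℕ → ℕ × ℕ → ℕ × ℕ → R) :
    S3 m (fun p q r => f p q.swap r) = S3 m f := by
  unfold S3
  refine sum_congr rfl fun p _ => ?_
  exact Finset.Nat.sum_antidiagonal_swap
    (f := fun q : ℕ × ℕ => ∑ r ∈ antidiagonal m, f p q r)

end sums

namespace Sys

variable {R : Type*} [Ring R] [StarRing R] {m : ℕ} (S : Sys R m)

/-- pattern x a y b z x y z -/
def T1 (m : ℕ) (x y z a b c1 c2 c3 : R) : R :=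
  S3 m fun p q r => x ^ p.1 * a * y ^ q.1 * b * z ^ r.1 * c1 * x ^ p.2 * c2 * y ^ q.2 * c3 *
    z ^ r.2

/-- pattern x a y b z y x z -/
def T2 (m : ℕ) (x y z a b c1 c2 c3 : R) : R :=
  S3 m fun p q r => x ^ p.1 * a * y ^ q.1 * b * z ^ r.1 * star c3 * y ^ q.2 * star c2 *
    x ^ p.2 * star c1 * z ^ r.2

/-- pattern x y z x y z -/
def W (m : ℕ) (x y z a b c1 c2 c3 : R) : R :=
  S3 m fun p q r => x ^ p.1 * c2 * y ^ q.1 * c3 * z ^ r.1 * c1 * x ^ p.2 * a * y ^ q.2 * b *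
    z ^ r.2

theorem T1_eq_W {x y z a b c1 c2 c3 : R} (hx : x ∈ S.J) (hy : y ∈ S.J) (hz : z ∈ S.J)
    (ha : a ∈ S.B) (hb : b ∈ S.B) (h1 : S.Mu c1) (h2 : S.Mu c2) (h3 : S.Mu c3) :
    T1 m x y z a b c1 c2 c3 = W m x y z a b c1 c2 c3 := by
  have sx := S.star_pow' hx
  have sy := S.star_pow' hy
  have sz := S.star_pow' hz
  have px := S.Mu_pow hx
  have py := S.Mu_pow hy
  have pz := S.Mu_pow hz
  have s1 := S.Mu_star h1
  have s2 := S.Mu_star h2
  have s3 := S.Mu_star h3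
  have ha' := S.starB a ha
  have hb' := S.starB b hb
  have e1 : T1 m x y z a b c1 c2 c3 = - S3 m fun p q r => x ^ p.1 * a * y ^ q.1 * star c2 *
      x ^ p.2 * star c1 * z ^ r.1 * star b * y ^ q.2 * c3 * z ^ r.2 := by
    refine S3_y fun p r => ?_
    have hU : b * (z ^ r.1 * c1 * x ^ p.2 * c2) ∈ S.B :=
      (S.Mu_mul (S.Mu_mul (S.Mu_mul (pz _) h1) (px _)) h2 _ hb).2
    have := S.kap hy (x ^ p.1 * a) _ (c3 * z ^ r.2) (S.sym _ hU)
    simpa only [star_mul, star_star, mul_assoc, sx, sy, sz] using this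
  have e2 : (S3 m fun p q r => x ^ p.1 * a * y ^ q.1 * star c2 *
      x ^ p.2 * star c1 * z ^ r.1 * star b * y ^ q.2 * c3 * z ^ r.2) =
      - S3 m fun p q r => x ^ p.1 * a * y ^ q.1 * star c2 *
      x ^ p.2 * star c1 * z ^ r.1 * star c3 * y ^ q.2 * b * z ^ r.2 := by
    refine S3_z fun p q => ?_
    have hU : star b * (y ^ q.2 * c3) ∈ S.B := (S.Mu_mul (py _) h3 _ hb').2
    have := S.kap hz (x ^ p.1 * a * y ^ q.1 * star c2 * x ^ p.2 * star c1) _ 1 (S.sym _ hU)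
    simpa only [star_mul, star_star, mul_assoc, sx, sy, sz, mul_one] using this
  have e3 : (S3 m fun p q r => x ^ p.1 * a * y ^ q.1 * star c2 *
      x ^ p.2 * star c1 * z ^ r.1 * star c3 * y ^ q.2 * b * z ^ r.2) =
      - S3 m fun p q r => x ^ p.1 * c2 * y ^ q.1 * star a *
      x ^ p.2 * star c1 * z ^ r.1 * star c3 * y ^ q.2 * b * z ^ r.2 := by
    refine S3_x fun q r => ?_
    have hU : a * (y ^ q.1 * star c2) ∈ S.B := (S.Mu_mul (py _) s2 _ ha).2
    have := S.kap hx 1 _ (star c1 * z ^ r.1 * star c3 * y ^ q.2 * b * z ^ r.2) (S.sym _ hU)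
    simpa only [star_mul, star_star, mul_assoc, sx, sy, sz, one_mul] using this
  have e4 : (S3 m fun p q r => x ^ p.1 * c2 * y ^ q.1 * star a *
      x ^ p.2 * star c1 * z ^ r.1 * star c3 * y ^ q.2 * b * z ^ r.2) =
      - W m x y z a b c1 c2 c3 := by
    refine S3_y fun p r => ?_
    have hU : star a * (x ^ p.2 * star c1 * z ^ r.1 * star c3) ∈ S.B :=
      (S.Mu_mul (S.Mu_mul (S.Mu_mul (px _) s1) (pz _)) s3 _ ha').2
    have := S.kap hy (x ^ p.1 * c2) _ (b * z ^ r.2) (S.sym _ hU)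
    simpa only [star_mul, star_star, mul_assoc, sx, sy, sz] using this
  rw [e1, e2, e3, e4, neg_neg, neg_neg]

theorem T2_eq_W {x y z a b c1 c2 c3 : R} (hx : x ∈ S.J) (hy : y ∈ S.J) (hz : z ∈ S.J)
    (ha : a ∈ S.B) (hb : b ∈ S.B) (h1 : S.Mu c1) (h2 : S.Mu c2) (h3 : S.Mu c3) :
    T2 m x y z a b c1 c2 c3 = W m x y z a b c1 c2 c3 := by
  have sx := S.star_pow' hx
  have sy := S.star_pow' hy
  have sz := S.star_pow' hz
  have px := S.Mu_pow hx
  have py := S.Mu_pow hy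
  have pz := S.Mu_pow hz
  have s1 := S.Mu_star h1
  have s2 := S.Mu_star h2
  have s3 := S.Mu_star h3
  have ha' := S.starB a ha
  have hb' := S.starB b hb
  have e1 : T2 m x y z a b c1 c2 c3 = - S3 m fun p q r => x ^ p.1 * c2 * y ^ q.2 * c3 *
      z ^ r.1 * star b * y ^ q.1 * star a * x ^ p.2 * star c1 * z ^ r.2 := by
    refine S3_x fun q r => ?_
    have hU : a * (y ^ q.1 * b * z ^ r.1 * star c3 * y ^ q.2 * star c2) ∈ S.B :=
      (S.Mu_mul (S.Mu_mul (S.Mu_mul (S.Mu_mul (S.Mu_mul (py _) (S.Mu_B hb)) (pz _)) s3)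
        (py _)) s2 _ ha).2
    have := S.kap hx 1 _ (star c1 * z ^ r.2) (S.sym _ hU)
    simpa only [star_mul, star_star, mul_assoc, sx, sy, sz, one_mul] using this
  have e2 : (S3 m fun p q r => x ^ p.1 * c2 * y ^ q.2 * c3 *
      z ^ r.1 * star b * y ^ q.1 * star a * x ^ p.2 * star c1 * z ^ r.2) =
      - S3 m fun p q r => x ^ p.1 * c2 * y ^ q.2 * c3 *
      z ^ r.1 * c1 * x ^ p.2 * a * y ^ q.1 * b * z ^ r.2 := by
    refine S3_z fun p q => ?_
    have hU : star b * (y ^ q.1 * star a * x ^ p.2 * star c1) ∈ S.B :=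
      (S.Mu_mul (S.Mu_mul (S.Mu_mul (py _) (S.Mu_B ha')) (px _)) s1 _ hb').2
    have := S.kap hz (x ^ p.1 * c2 * y ^ q.2 * c3) _ 1 (S.sym _ hU)
    simpa only [star_mul, star_star, mul_assoc, sx, sy, sz, mul_one] using this
  have e3 : (S3 m fun p q r => x ^ p.1 * c2 * y ^ q.2 * c3 *
      z ^ r.1 * c1 * x ^ p.2 * a * y ^ q.1 * b * z ^ r.2) = W m x y z a b c1 c2 c3 :=
    S3_swap_y (fun p q r => x ^ p.1 * c2 * y ^ q.1 * c3 *
      z ^ r.1 * c1 * x ^ p.2 * a * y ^ q.2 * b * z ^ r.2)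
  rw [e1, e2, e3, neg_neg]

/-- a triple crossing with a nontrivial interior vanishes -/
theorem T1_zero {x y z a b c1 c2 c3 : R} (hx : x ∈ S.J) (hy : y ∈ S.J) (hz : z ∈ S.J)
    (ha : a ∈ S.B) (hb : b ∈ S.B) (h1 : S.Mu c1) (h2 : S.Mu c2) (h3 : S.Mu c3)
    (hU : ∀ i j : ℕ, c1 * x ^ i * c2 * y ^ j * c3 + star (c1 * x ^ i * c2 * y ^ j * c3) ∈ S.J) :
    T1 m x y z a b c1 c2 c3 + T1 m x y z a b c1 c2 c3 = 0 := by
  have sx := S.star_pow' hx
  have sy := S.star_pow' hy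
  have e : T1 m x y z a b c1 c2 c3 = - T2 m x y z a b c1 c2 c3 := by
    refine S3_z fun p q => ?_
    have := S.kap hz (x ^ p.1 * a * y ^ q.1 * b) _ 1 (hU p.2 q.2)
    simpa only [star_mul, star_star, mul_assoc, sx, sy, mul_one] using this
  have e1 := S.T1_eq_W hx hy hz ha hb h1 h2 h3
  have e2 := S.T2_eq_W hx hy hz ha hb h1 h2 h3
  rw [e1, e2] at e
  rw [e1]
  exact add_eq_zero_iff_eq_neg.2 e

omit [StarRing R] in
theorem sum_last {f : ℕ × ℕ → R} (h : ∀ p : ℕ × ℕ, p.2 ≠ 0 → f p = 0) :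
    ∑ p ∈ antidiagonal m, f p = f (m, 0) := by
  refine sum_eq_single (m, 0) ?_ ?_
  · intro p hp hne
    refine h p fun h0 => hne ?_
    rw [HasAntidiagonal.mem_antidiagonal] at hp
    refine Prod.ext ?_ h0
    show p.1 = m
    omega
  · intro h1
    exact absurd (HasAntidiagonal.mem_antidiagonal.2 (add_zero m)) h1

theorem kap_mon {w x y z : R} (hw : w ∈ S.J) (hx : x ∈ S.J) (hy : y ∈ S.J) (hz : z ∈ S.J)
    (P : R) (i j k : ℕ) (h : i + j + k ≠ 0) :
    ∑ p ∈ antidiagonal m, (P * w ^ p.1 * (x ^ i * y ^ j * z ^ k) * w ^ p.2 +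
      P * w ^ p.1 * (z ^ k * y ^ j * x ^ i) * w ^ p.2) = 0 := by
  have sx := S.star_pow' hx
  have sy := S.star_pow' hy
  have sz := S.star_pow' hz
  have e : star (x ^ i * y ^ j * z ^ k) = z ^ k * y ^ j * x ^ i := by
    rw [star_mul, star_mul, sx, sy, sz, mul_assoc]
  have h1 := S.tri x hx y hy z hz i j k h
  have h2 : x ^ i * y ^ j * z ^ k + star (x ^ i * y ^ j * z ^ k) ∈ S.J := by
    rw [e]
    exact h1
  have h3 := S.kap hw P _ 1 h2
  rw [e] at h3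
  simp only [mul_one] at h3
  rw [sum_add_distrib, h3, neg_add_cancel]

omit [StarRing R] in
theorem D_one (P w : R) : ∑ p ∈ antidiagonal m, (P * w ^ p.1 * w ^ p.2 +
    P * w ^ p.1 * w ^ p.2) = (2 * (m + 1)) • (P * w ^ m) := by
  have e : ∀ p ∈ antidiagonal m, P * w ^ p.1 * w ^ p.2 + P * w ^ p.1 * w ^ p.2 =
      2 • (P * w ^ m) := by
    intro p hp
    rw [HasAntidiagonal.mem_antidiagonal] at hp
    rw [mul_assoc, ← pow_add, hp, two_smul]
  rw [sum_congr rfl e, sum_const, Nat.card_antidiagonal, ← mul_smul, mul_comm]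

theorem T1_add_T2 {x y z a b : R} (hx : x ∈ S.J) (hy : y ∈ S.J) (hz : z ∈ S.J) :
    T1 m x y z a b 1 1 1 + T2 m x y z a b 1 1 1 =
      (2 * (m + 1)) • (x ^ m * a * y ^ m * b * z ^ m) := by
  have e : T1 m x y z a b 1 1 1 + T2 m x y z a b 1 1 1 =
      ∑ p ∈ antidiagonal m, ∑ q ∈ antidiagonal m, ∑ r ∈ antidiagonal m,
      (x ^ p.1 * a * y ^ q.1 * b * z ^ r.1 * (x ^ p.2 * y ^ q.2 * z ^ 0) * z ^ r.2 +
        x ^ p.1 * a * y ^ q.1 * b * z ^ r.1 * (z ^ 0 * y ^ q.2 * x ^ p.2) * z ^ r.2) := by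
    unfold T1 T2 S3
    rw [← sum_add_distrib]
    refine sum_congr rfl fun p _ => ?_
    rw [← sum_add_distrib]
    refine sum_congr rfl fun q _ => ?_
    rw [← sum_add_distrib]
    refine sum_congr rfl fun r _ => ?_
    simp only [star_one, mul_one, one_mul, pow_zero, mul_assoc]
  rw [e, sum_last, sum_last]
  · simp only [pow_zero, mul_one]
    exact D_one _ _
  · intro q hq
    exact S.kap_mon hz hx hy hz _ _ _ _ (by omega)
  · intro p hp
    refine sum_eq_zero fun q _ => ?_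
    exact S.kap_mon hz hx hy hz _ _ _ _ (by omega)

/-- pattern x a y b z c w x y z w -/
def T4 (m : ℕ) (x y z w a b c : R) : R :=
  ∑ s ∈ antidiagonal m, T1 m x y z a b (c * w ^ s.1) 1 1 * w ^ s.2

/-- pattern x a y b z c w z y x w -/
def T5 (m : ℕ) (x y z w a b c : R) : R :=
  ∑ p ∈ antidiagonal m, x ^ p.1 * a * T2 m y z w b c (x ^ p.2) 1 1

theorem T4_add_T5 {x y z w a b c : R} (hx : x ∈ S.J) (hy : y ∈ S.J) (hz : z ∈ S.J)
    (hw : w ∈ S.J) : T4 m x y z w a b c + T5 m x y z w a b c =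
      (2 * (m + 1)) • (x ^ m * a * y ^ m * b * z ^ m * c * w ^ m) := by
  have sx := S.star_pow' hx
  have e4 : T4 m x y z w a b c = ∑ p ∈ antidiagonal m, ∑ q ∈ antidiagonal m,
      ∑ r ∈ antidiagonal m, ∑ s ∈ antidiagonal m,
      x ^ p.1 * a * y ^ q.1 * b * z ^ r.1 * c * w ^ s.1 * (x ^ p.2 * y ^ q.2 * z ^ r.2) *
        w ^ s.2 := by
    unfold T4 T1 S3
    simp only [sum_mul]
    rw [sum_comm]
    refine sum_congr rfl fun p _ => ?_
    rw [sum_comm]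
    refine sum_congr rfl fun q _ => ?_
    rw [sum_comm]
    refine sum_congr rfl fun r _ => ?_
    refine sum_congr rfl fun s _ => ?_
    simp only [mul_one, mul_assoc]
  have e5 : T5 m x y z w a b c = ∑ p ∈ antidiagonal m, ∑ q ∈ antidiagonal m,
      ∑ r ∈ antidiagonal m, ∑ s ∈ antidiagonal m,
      x ^ p.1 * a * y ^ q.1 * b * z ^ r.1 * c * w ^ s.1 * (z ^ r.2 * y ^ q.2 * x ^ p.2) *
        w ^ s.2 := by
    unfold T5 T2 S3
    simp only [mul_sum]
    refine sum_congr rfl fun p _ => ?_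
    refine sum_congr rfl fun q _ => ?_
    refine sum_congr rfl fun r _ => ?_
    refine sum_congr rfl fun s _ => ?_
    simp only [star_one, sx, mul_one, mul_assoc]
  rw [e4, e5, ← sum_add_distrib]
  simp only [← sum_add_distrib]
  rw [sum_last, sum_last, sum_last]
  · simp only [pow_zero, mul_one]
    exact D_one _ _
  · intro r hr
    exact S.kap_mon hw hx hy hz _ _ _ _ (by omega)
  · intro q hq
    refine sum_eq_zero fun r _ => ?_
    exact S.kap_mon hw hx hy hz _ _ _ _ (by omega)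
  · intro p hp
    refine sum_eq_zero fun q _ => ?_
    refine sum_eq_zero fun r _ => ?_
    exact S.kap_mon hw hx hy hz _ _ _ _ (by omega)

theorem T4_zero {x y z w a b c : R} (hx : x ∈ S.J) (hy : y ∈ S.J) (hz : z ∈ S.J)
    (hw : w ∈ S.J) (ha : a ∈ S.B) (hb : b ∈ S.B) (hc : c ∈ S.B) :
    T4 m x y z w a b c + T4 m x y z w a b c = 0 := by
  unfold T4
  rw [← sum_add_distrib]
  refine sum_eq_zero fun s _ => ?_
  rw [← add_mul]
  have h1 : c * w ^ s.1 ∈ S.B := (S.Mu_pow hw s.1 c hc).2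
  rw [S.T1_zero hx hy hz ha hb (S.Mu_B h1) S.Mu_one S.Mu_one, zero_mul]
  intro i j
  refine S.sym _ ?_
  rw [mul_one, mul_one]
  exact (S.Mu_pow hy j _ (S.Mu_pow hx i _ h1).2).2

theorem T5_two {x y z w a b c : R} (hx : x ∈ S.J) (hy : y ∈ S.J) (hz : z ∈ S.J)
    (hw : w ∈ S.J) (hb : b ∈ S.B) (hc : c ∈ S.B) :
    T5 m x y z w a b c + T5 m x y z w a b c =
      (2 * (m + 1)) • (x ^ m * a * y ^ m * b * z ^ m * c * w ^ m) := by
  unfold T5
  rw [← sum_add_distrib, sum_last]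
  · rw [pow_zero, ← mul_add]
    have e1 := S.T1_eq_W hy hz hw hb hc S.Mu_one S.Mu_one S.Mu_one
    have e2 := S.T2_eq_W hy hz hw hb hc S.Mu_one S.Mu_one S.Mu_one
    have e3 := S.T1_add_T2 (a := b) (b := c) hy hz hw
    rw [e1, ← e2] at e3
    rw [e3, mul_smul_comm]
    simp only [mul_assoc]
  · intro p hp
    rw [← mul_add]
    have hm := S.Mu_pow hx p.2
    have e1 := S.T1_eq_W hy hz hw hb hc hm S.Mu_one S.Mu_one
    have e2 := S.T2_eq_W hy hz hw hb hc hm S.Mu_one S.Mu_one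
    have e3 := S.T1_zero hy hz hw hb hc hm S.Mu_one S.Mu_one (by
      intro i j
      have h1 := S.tri x hx y hy z hz p.2 i j (by omega)
      have sx := S.star_pow' hx
      have sy := S.star_pow' hy
      have sz := S.star_pow' hz
      simpa only [star_mul, mul_one, one_mul, sx, sy, sz, mul_assoc] using h1)
    rw [e1, ← e2] at e3
    rw [e3, mul_zero]

/-- THE MAIN IDENTITY -/
theorem main {x y z w a b c : R} (hx : x ∈ S.J) (hy : y ∈ S.J) (hz : z ∈ S.J)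
    (hw : w ∈ S.J) (ha : a ∈ S.B) (hb : b ∈ S.B) (hc : c ∈ S.B) :
    (2 * (m + 1)) • (x ^ m * a * y ^ m * b * z ^ m * c * w ^ m) = 0 := by
  have h1 := S.T4_add_T5 (a := a) (b := b) (c := c) hx hy hz hw
  have h2 := S.T4_zero hx hy hz hw ha hb hc
  have h3 := S.T5_two (a := a) hx hy hz hw hb hc
  have h4 : (T4 m x y z w a b c + T5 m x y z w a b c) +
      (T4 m x y z w a b c + T5 m x y z w a b c) =
      (T4 m x y z w a b c + T4 m x y z w a b c) +
      (T5 m x y z w a b c + T5 m x y z w a b c) := by abel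
  rw [h1, h2, h3, zero_add] at h4
  exact left_eq_add.1 h4.symm

end Sys

end Pool.Agent.H.MP_e16c79_al.HS
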