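import Pool.Agent.H.MP_e16c79_al.HS.Ind

/-!
# MP_e16c79_al: hermitian Jordan rings of bounded nil index
-/

set_option autoImplicit false

namespace Pool.Agent.H.MP_e16c79_al.HS

universe u v

section hull

/-- a ring with involution which contains `A` as an ideal -/
structure Hul (A : Type u) [NonUnitalRing A] [StarRing A] (R : Type u) [Ring R] [StarRing R] where
  i : A →+ R
  mul : ∀ a b, i (a * b) = i a * i b
  st : ∀ a, i (star a) = star (i a)
  inj : Function.Injective i
  left : ∀ (r : R) (a : A), ∃ b, r * i a = i b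
  right : ∀ (a : A) (r : R), ∃ b, i a * r = i b

variable {A : Type u} [NonUnitalRing A] [StarRing A] {R : Type u} [Ring R] [StarRing R]

theorem sideal_bot : SIdeal (⊥ : AddSubgroup R) where
  left := by
    intro r w hw
    rw [AddSubgroup.mem_bot] at hw ⊢
    rw [hw, mul_zero]
  right := by
    intro w hw r
    rw [AddSubgroup.mem_bot] at hw ⊢
    rw [hw, zero_mul]
  star := by
    intro w hw
    rw [AddSubgroup.mem_bot] at hw ⊢
    rw [hw, star_zero]

variable (R) in
/-- the torsion ideal -/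
abbrev Tn (M : ℤ) : AddSubgroup R := sat M ⊥

variable (R) in
theorem sideal_T (M : ℤ) : SIdeal (Tn R M) := sideal_sat M sideal_bot

variable (R) in
/-- the quotient without torsion -/
abbrev QQ (M : ℤ) := Q (Tn R M) (sideal_T R M)

/-- the map to the quotient -/
def ι (H : Hul A R) (M : ℤ) : A →+ QQ R M :=
  ((pr (Tn R M) (sideal_T R M)) : R →+ QQ R M).comp H.i

theorem ι_mul (H : Hul A R) (M : ℤ) (a b : A) : ι H M (a * b) = ι H M a * ι H M b := by
  show pr (Tn R M) (sideal_T R M) (H.i (a * b)) = _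
  rw [H.mul, map_mul]
  rfl

theorem ι_zero {H : Hul A R} {M : ℤ} {a : A} (h : ι H M a = 0) : ∃ k : ℕ, (M ^ k) • a = 0 := by
  have h1 : H.i a ∈ Tn R M := pr_zero.1 h
  obtain ⟨k, hk⟩ := h1
  refine ⟨k, ?_⟩
  rw [AddSubgroup.mem_bot, ← map_zsmul] at hk
  exact H.inj (by rw [hk, map_zero])

theorem QQ_tf {M : ℤ} {q : QQ R M} (h : M • q = 0) : q = 0 := by
  obtain ⟨r, rfl⟩ := pr_surj (Tn R M) (sideal_T R M) q
  rw [← map_zsmul, pr_zero] at h
  rw [pr_zero]
  exact sat_sat 1 (by rw [pow_one]; exact h)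

theorem QQ_of {M c d : ℤ} (hM : M = c * d) {q : QQ R M} (h : d • q = 0) : q = 0 := by
  refine QQ_tf ?_
  have e : M • q = (c * d) • q := by rw [← hM]
  rw [e, mul_smul, h, smul_zero]

/-- the image of the ring -/
def BB (H : Hul A R) (M : ℤ) : AddSubgroup (QQ R M) := (ι H M).range

theorem mem_BB (H : Hul A R) (M : ℤ) (a : A) : ι H M a ∈ BB H M := ⟨a, rfl⟩

end hull

section jordan

variable {J : Type v} [NonUnitalNonAssocCommRing J] {A : Type u} [NonUnitalRing A] [StarRing A]
  {R : Type u} [Ring R] [StarRing R] (H : Hul A R)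

/-- The data for a hermitian Jordan ring. -/
theorem data_of (n : ℕ) (hn : 1 ≤ n) (hnil : ∀ a : J, (fun x => a * x)^[n - 1] a = 0)
    (φ : J →+ A) (hmul : ∀ x y, 2 • φ (x * y) = φ x * φ y + φ y * φ x)
    (hsym : ∀ x, star (φ x) = φ x) (htr : ∀ a : A, ∃ x, φ x = a + star a) :
    letI := qstar (Tn R ((2 * n.factorial : ℕ) : ℤ)) (sideal_T R _)
    Data n (BB H ((2 * n.factorial : ℕ) : ℤ))
      ((ι H ((2 * n.factorial : ℕ) : ℤ)).comp φ).range := by
  set M : ℤ := ((2 * n.factorial : ℕ) : ℤ) with hM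
  let _ := qstar (Tn R M) (sideal_T R M)
  have htwo : ∀ q : QQ R M, (2 : ℤ) • q = 0 → q = 0 := by
    intro q hq
    refine QQ_of (c := (n.factorial : ℤ)) (d := 2) ?_ hq
    rw [hM]
    push_cast
    ring
  have hstar : ∀ a : A, star (ι H M a) = ι H M (star a) := by
    intro a
    have h1 := star_pr (Tn R M) (sideal_T R M) (H.i a)
    refine h1.trans ?_
    rw [← H.st]
    rfl
  have hpow : ∀ (k : ℕ) (a : J), ι H M (φ ((fun x => a * x)^[k] a)) = (ι H M (φ a)) ^ (k + 1) := by
    intro k a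
    induction k with
    | zero => simp
    | succ k ih =>
      rw [Function.iterate_succ_apply']
      rw [← sub_eq_zero]
      refine htwo _ ?_
      have h1 := congrArg (ι H M) (hmul a ((fun x => a * x)^[k] a))
      rw [map_nsmul, map_add, ι_mul, ι_mul, ih] at h1
      rw [smul_sub]
      have h2 : (2 : ℤ) • ι H M (φ (a * (fun x => a * x)^[k] a)) =
          2 • ι H M (φ (a * (fun x => a * x)^[k] a)) := by
        rw [two_smul, two_nsmul]
      rw [h2, h1, two_smul, ← pow_succ, ← pow_succ', sub_self]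
  constructor
  · rintro r b ⟨b, rfl⟩
    obtain ⟨r, rfl⟩ := pr_surj (Tn R M) (sideal_T R M) r
    obtain ⟨c, hc⟩ := H.left r b
    refine ⟨c, ?_⟩
    show pr (Tn R M) (sideal_T R M) (H.i c) = _
    rw [← hc, map_mul]
    rfl
  · rintro b ⟨b, rfl⟩ r
    obtain ⟨r, rfl⟩ := pr_surj (Tn R M) (sideal_T R M) r
    obtain ⟨c, hc⟩ := H.right b r
    refine ⟨c, ?_⟩
    show pr (Tn R M) (sideal_T R M) (H.i c) = _
    rw [← hc, map_mul]
    rfl
  · rintro b ⟨b, rfl⟩
    exact ⟨star b, (hstar b).symm⟩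
  · rintro b ⟨x, rfl⟩
    exact ⟨φ x, rfl⟩
  · rintro b ⟨x, rfl⟩
    show star (ι H M (φ x)) = ι H M (φ x)
    rw [hstar, hsym]
  · rintro b ⟨b, rfl⟩
    obtain ⟨x, hx⟩ := htr b
    refine ⟨x, ?_⟩
    show ι H M (φ x) = ι H M b + star (ι H M b)
    rw [hx, map_add, hstar]
  · rintro b ⟨x, rfl⟩
    show (ι H M (φ x)) ^ n = 0
    have h1 := hpow (n - 1) x
    rw [hnil, map_zero, map_zero, Nat.sub_add_cancel hn] at h1
    exact h1.symm
  · intro r hr
    exact QQ_tf hr

/-- subgroup spanned by products of `m` elements -/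
def PP {R : Type u} [Ring R] (B : AddSubgroup R) (m : ℕ) : AddSubgroup R :=
  AddSubgroup.closure {w | ∃ l : List R, l.length = m ∧ (∀ b ∈ l, b ∈ B) ∧ w = l.prod}

theorem PP_mul {R : Type u} [Ring R] {B : AddSubgroup R} {m k : ℕ} {a b : R} (ha : a ∈ PP B m)
    (hb : b ∈ PP B k) : a * b ∈ PP B (m + k) := by
  have h1 : ∀ l : List R, l.length = m → (∀ b ∈ l, b ∈ B) → l.prod * b ∈ PP B (m + k) := by
    intro l hl hlB
    have h2 : PP B k ≤ (PP B (m + k)).comap (AddMonoidHom.mulLeft l.prod) := by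
      refine (AddSubgroup.closure_le _).2 ?_
      rintro w ⟨l', hl', hlB', rfl⟩
      refine AddSubgroup.subset_closure ⟨l ++ l', by rw [List.length_append, hl, hl'], ?_, ?_⟩
      · intro c hc
        rcases List.mem_append.1 hc with hc | hc
        · exact hlB c hc
        · exact hlB' c hc
      · show l.prod * l'.prod = _
        rw [List.prod_append]
    exact h2 hb
  have h3 : PP B m ≤ (PP B (m + k)).comap (AddMonoidHom.mulRight b) := by
    refine (AddSubgroup.closure_le _).2 ?_
    rintro w ⟨l, hl, hlB, rfl⟩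
    exact h1 l hl hlB
  exact h3 ha

/-- THE THEOREM in a hull. -/
theorem fin_hul (H : Hul A R) (hcore : CoreStmt.{u}) (n : ℕ) (hn : 1 ≤ n)
    (hnil : ∀ a : J, (fun x => a * x)^[n - 1] a = 0)
    (φ : J →+ A) (hmul : ∀ x y, 2 • φ (x * y) = φ x * φ y + φ y * φ x)
    (hsym : ∀ x, star (φ x) = φ x) (htr : ∀ a : A, ∃ x, φ x = a + star a) :
    (∀ (a : A) (l : List A), l.length = 3 * 7 ^ (n - 1) - 1 →
      ∃ k : ℕ, ((2 * n.factorial) ^ k) • l.foldl (· * ·) a = 0) ∧
    ((∀ a : J, (2 * n.factorial) • a = 0 → a = 0) → Function.Injective φ →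
      ∀ D : ℕ → AddSubgroup J, D 0 = ⊤ →
      (∀ i, D (i + 1) = AddSubgroup.closure {x : J | ∃ a ∈ D i, ∃ b ∈ D i, x = a * b}) →
      D (3 * n - 1) = ⊥) := by
  set M : ℤ := ((2 * n.factorial : ℕ) : ℤ) with hM
  have hD := data_of H n hn hnil φ hmul hsym htr
  let _ := qstar (Tn R M) (sideal_T R M)
  obtain ⟨m, rfl⟩ : ∃ m, n = m + 1 := ⟨n - 1, by omega⟩
  rw [Nat.add_sub_cancel]
  have hmain := main_data hcore m (QQ R M) (BB H M) _ hD
  constructor
  · intro a l hl
    have hpos : 0 < 3 * 7 ^ m := by positivity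
    have h1 : ∀ (l : List A) (a : A), ι H M (l.foldl (· * ·) a) = ((a :: l).map (ι H M)).prod := by
      intro l
      induction l with
      | nil =>
        intro a
        simp
      | cons b l ih =>
        intro a
        rw [List.foldl_cons, ih, List.map_cons, List.map_cons, List.map_cons, List.prod_cons,
          List.prod_cons, List.prod_cons, ι_mul, mul_assoc]
    have h2 : ι H M (l.foldl (· * ·) a) = 0 := by
      rw [h1]
      refine hmain _ ?_ ?_
      · rw [List.length_map, List.length_cons, hl]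
        omega
      · intro b hb
        obtain ⟨c, -, rfl⟩ := List.mem_map.1 hb
        exact mem_BB H M c
    obtain ⟨k, hk⟩ := ι_zero h2
    refine ⟨k, ?_⟩
    rw [hM] at hk
    rw [← Nat.cast_pow, natCast_zsmul] at hk
    exact hk
  · intro htf hinj D hD0 hDs
    have hPP : PP (BB H M) (2 ^ (3 * (m + 1) - 1)) = ⊥ := by
      rw [eq_bot_iff]
      refine (AddSubgroup.closure_le _).2 ?_
      rintro w ⟨l, hl, hlB, rfl⟩
      have hle : 3 * 7 ^ m ≤ 2 ^ (3 * (m + 1) - 1) := by
        have e : 3 * (m + 1) - 1 = 3 * m + 2 := by omega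
        rw [e, pow_add, pow_mul]
        have h8 : 7 ^ m ≤ 8 ^ m := Nat.pow_le_pow_left (by norm_num) m
        have : (2 : ℕ) ^ 3 = 8 := by norm_num
        rw [this]
        omega
      obtain ⟨l1, l2, rfl, h1, h2⟩ := split (3 * 7 ^ m) (l.length - 3 * 7 ^ m) l (by
        rw [hl]
        omega)
      have h3 := hmain l1 h1 (fun b hb => hlB b (List.mem_append_left _ hb))
      show (l1 ++ l2).prod = 0
      rw [List.prod_append, h3, zero_mul]
    have key : ∀ k, ∀ x ∈ D k, ι H M (φ x) ∈ sat 2 (PP (BB H M) (2 ^ k)) := by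
      intro k
      induction k with
      | zero =>
        intro x _
        refine le_sat _ _ (AddSubgroup.subset_closure ⟨[ι H M (φ x)], rfl, ?_, by simp⟩)
        intro b hb
        rw [List.mem_singleton] at hb
        rw [hb]
        exact mem_BB H M _
      | succ k ih =>
        intro x hx
        rw [hDs] at hx
        have h1 : AddSubgroup.closure {x : J | ∃ a ∈ D k, ∃ b ∈ D k, x = a * b} ≤
            (sat 2 (PP (BB H M) (2 ^ (k + 1)))).comap ((ι H M).comp φ) := by
          refine (AddSubgroup.closure_le _).2 ?_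
          rintro y ⟨a, ha, b, hb, rfl⟩
          show ι H M (φ (a * b)) ∈ sat 2 (PP (BB H M) (2 ^ (k + 1)))
          obtain ⟨i, hi⟩ := ih a ha
          obtain ⟨j, hj⟩ := ih b hb
          have h2 := congrArg (ι H M) (hmul a b)
          rw [map_nsmul, map_add, ι_mul, ι_mul] at h2
          refine ⟨i + j + 1, ?_⟩
          have h3 : ((2 : ℤ) ^ (i + j + 1)) • ι H M (φ (a * b)) =
              ((2 : ℤ) ^ i • ι H M (φ a)) * ((2 : ℤ) ^ j • ι H M (φ b)) +
              ((2 : ℤ) ^ j • ι H M (φ b)) * ((2 : ℤ) ^ i • ι H M (φ a)) := by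
            have h4 : (2 : ℤ) • ι H M (φ (a * b)) = 2 • ι H M (φ (a * b)) := by
              rw [two_smul, two_nsmul]
            rw [pow_succ, mul_smul, h4, h2, smul_add, smul_mul_smul_comm, smul_mul_smul_comm,
              ← pow_add, ← pow_add, add_comm j i]
          rw [h3]
          have e : 2 ^ (k + 1) = 2 ^ k + 2 ^ k := by ring
          rw [e]
          exact (PP _ _).add_mem (PP_mul hi hj) (PP_mul hj hi)
        exact h1 hx
    rw [eq_bot_iff]
    intro x hx
    obtain ⟨j, hj⟩ := key _ x hx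
    rw [hPP, AddSubgroup.mem_bot] at hj
    have h2 : ι H M (φ x) = 0 := by
      refine tf_pow (M := 2) ?_ j hj
      intro q hq
      refine QQ_of (c := ((m + 1).factorial : ℤ)) (d := 2) ?_ hq
      rw [hM]
      push_cast
      ring
    obtain ⟨k, hk⟩ := ι_zero h2
    rw [← map_zsmul, hM, ← Nat.cast_pow, natCast_zsmul] at hk
    have h3 : ((2 * (m + 1).factorial) ^ k) • x = 0 := hinj (by rw [hk, map_zero])
    have h4 : ∀ k : ℕ, ((2 * (m + 1).factorial) ^ k) • x = 0 → x = 0 := by
      intro k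
      induction k with
      | zero =>
        intro h
        simpa using h
      | succ k ih =>
        intro h
        refine ih (htf _ ?_)
        rw [← mul_smul, ← pow_succ']
        exact h
    exact h4 k h3

end jordan

/-- the unital hull -/
def hul (A : Type u) [NonUnitalRing A] [StarRing A] : Hul A (Unitization ℤ A) where
  i :=
    { toFun := fun a => (a : Unitization ℤ A)
      map_zero' := Unitization.inr_zero ℤ
      map_add' := fun a b => Unitization.inr_add ℤ a b }
  mul := fun a b => Unitization.inr_mul ℤ a b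
  st := fun a => Unitization.inr_star a
  inj := Unitization.inr_injective
  left := by
    intro r a
    refine ⟨(r * (a : Unitization ℤ A)).snd, ?_⟩
    refine Unitization.ext ?_ ?_
    · show (r * (a : Unitization ℤ A)).fst = 0
      rw [Unitization.fst_mul, Unitization.fst_inr, mul_zero]
    · rfl
  right := by
    intro a r
    refine ⟨((a : Unitization ℤ A) * r).snd, ?_⟩
    refine Unitization.ext ?_ ?_
    · show ((a : Unitization ℤ A) * r).fst = 0
      rw [Unitization.fst_mul, Unitization.fst_inr, zero_mul]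
    · rfl

/-- THE THEOREM. -/
theorem fin {J : Type v} [NonUnitalNonAssocCommRing J] {A : Type u} [NonUnitalRing A] [StarRing A]
    (hcore : CoreStmt.{u}) (n : ℕ) (hn : 1 ≤ n)
    (hnil : ∀ a : J, (fun x => a * x)^[n - 1] a = 0)
    (φ : J →+ A) (hmul : ∀ x y, 2 • φ (x * y) = φ x * φ y + φ y * φ x)
    (hsym : ∀ x, star (φ x) = φ x) (htr : ∀ a : A, ∃ x, φ x = a + star a) :
    (∀ (a : A) (l : List A), l.length = 3 * 7 ^ (n - 1) - 1 →
      ∃ k : ℕ, ((2 * n.factorial) ^ k) • l.foldl (· * ·) a = 0) ∧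
    ((∀ a : J, (2 * n.factorial) • a = 0 → a = 0) → Function.Injective φ →
      ∀ D : ℕ → AddSubgroup J, D 0 = ⊤ →
      (∀ i, D (i + 1) = AddSubgroup.closure {x : J | ∃ a ∈ D i, ∃ b ∈ D i, x = a * b}) →
      D (3 * n - 1) = ⊥) :=
  fin_hul (hul A) hcore n hn hnil φ hmul hsym htr

end Pool.Agent.H.MP_e16c79_al.HS
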