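import Pool.Agent.H.MP_e16c79_al.HS.Quot

/-!
# MP_e16c79_al: the induction for rings with involution
-/

set_option autoImplicit false

namespace Pool.Agent.H.MP_e16c79_al.HS

universe u

/-- the statement of the core lemma -/
def CoreStmt : Prop :=
  ∀ (R : Type u) [Ring R] [StarRing R] (n : ℕ) (B J : AddSubgroup R), 1 ≤ n → Data n B J →
    ∀ x ∈ J, ∀ y ∈ J, ∀ z ∈ J, ∀ w ∈ J, ∀ a ∈ B, ∀ b ∈ B, ∀ c ∈ B,
      x ^ (n - 1) * a * y ^ (n - 1) * b * z ^ (n - 1) * c * w ^ (n - 1) = 0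

section

variable {R : Type u} [Ring R] [StarRing R]

/-- elements killed by a power of `M` modulo `I` -/
def sat (M : ℤ) (I : AddSubgroup R) : AddSubgroup R where
  carrier := {w | ∃ k : ℕ, (M ^ k) • w ∈ I}
  zero_mem' := ⟨0, by
    rw [smul_zero]
    exact I.zero_mem⟩
  add_mem' := by
    rintro a b ⟨k, hk⟩ ⟨l, hl⟩
    refine ⟨k + l, ?_⟩
    have e1 : (M ^ (k + l)) • (a + b) =
        (M ^ l) • ((M ^ k) • a) + (M ^ k) • ((M ^ l) • b) := by
      rw [smul_add, ← mul_smul, ← mul_smul, pow_add, mul_comm (M ^ l)]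
    rw [e1]
    exact I.add_mem (I.zsmul_mem hk _) (I.zsmul_mem hl _)
  neg_mem' := by
    rintro a ⟨k, hk⟩
    refine ⟨k, ?_⟩
    rw [smul_neg]
    exact I.neg_mem hk

theorem le_sat (M : ℤ) (I : AddSubgroup R) : I ≤ sat M I := fun w hw => ⟨0, by
  rw [pow_zero, one_smul]
  exact hw⟩

theorem sat_sat {M : ℤ} {I : AddSubgroup R} {w : R} (k : ℕ) (h : (M ^ k) • w ∈ sat M I) :
    w ∈ sat M I := by
  obtain ⟨l, hl⟩ := h
  refine ⟨l + k, ?_⟩
  rw [pow_add, mul_smul]
  exact hl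

theorem sideal_sat (M : ℤ) {I : AddSubgroup R} (h : SIdeal I) : SIdeal (sat M I) where
  left := by
    rintro r w ⟨k, hk⟩
    refine ⟨k, ?_⟩
    rw [← mul_smul_comm]
    exact h.left _ _ hk
  right := by
    rintro w ⟨k, hk⟩ r
    refine ⟨k, ?_⟩
    rw [← smul_mul_assoc]
    exact h.right _ hk _
  star := by
    rintro w ⟨k, hk⟩
    refine ⟨k, ?_⟩
    have h1 := h.star _ hk
    rw [star_zsmul] at h1
    exact h1

/-- the ideal generated by the `n`-th powers -/
def pid (n : ℕ) (J : AddSubgroup R) : AddSubgroup R :=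
  AddSubgroup.closure {w | ∃ r : R, ∃ x ∈ J, ∃ s : R, w = r * x ^ n * s}

theorem sideal_pid (n : ℕ) {J : AddSubgroup R} (hs : ∀ x ∈ J, Star.star x = x) :
    SIdeal (pid n J) where
  left := by
    intro r w hw
    have h1 : pid n J ≤ (pid n J).comap (AddMonoidHom.mulLeft r) := by
      refine (AddSubgroup.closure_le _).2 ?_
      rintro u ⟨r', x, hx, s, rfl⟩
      refine AddSubgroup.subset_closure ⟨r * r', x, hx, s, ?_⟩
      show r * (r' * x ^ n * s) = _
      simp only [mul_assoc]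
    exact h1 hw
  right := by
    intro w hw r
    have h1 : pid n J ≤ (pid n J).comap (AddMonoidHom.mulRight r) := by
      refine (AddSubgroup.closure_le _).2 ?_
      rintro u ⟨r', x, hx, s, rfl⟩
      refine AddSubgroup.subset_closure ⟨r', x, hx, s * r, ?_⟩
      show (r' * x ^ n * s) * r = _
      simp only [mul_assoc]
    exact h1 hw
  star := by
    intro w hw
    have h1 : pid n J ≤ (pid n J).comap (starAddEquiv (R := R)).toAddMonoidHom := by
      refine (AddSubgroup.closure_le _).2 ?_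
      rintro u ⟨r', x, hx, s, rfl⟩
      refine AddSubgroup.subset_closure ⟨Star.star s, x, hx, Star.star r', ?_⟩
      show Star.star (r' * x ^ n * s) = _
      rw [star_mul, star_mul, star_pow, hs x hx, mul_assoc]
    exact h1 hw

/-- multiples of torsion-free elements -/
theorem tf_pow {M : ℤ} (hM : ∀ r : R, M • r = 0 → r = 0) (k : ℕ) {r : R} (h : (M ^ k) • r = 0) :
    r = 0 := by
  induction k with
  | zero => simpa using h
  | succ k ih =>
    refine ih (hM _ ?_)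
    rw [← mul_smul, ← pow_succ']
    exact h

/-- seven elements of the ideal of powers -/
theorem seven_zero (hcore : CoreStmt.{u}) {n : ℕ} {B J : AddSubgroup R} (h : Data (n + 1) B J)
    {M : ℤ} (hM : ∀ r : R, M • r = 0 → r = 0) {e1 e2 e3 e4 e5 e6 e7 : R}
    (h1 : e1 ∈ sat M (pid n J)) (h2 : e2 ∈ B) (h3 : e3 ∈ sat M (pid n J)) (h4 : e4 ∈ B)
    (h5 : e5 ∈ sat M (pid n J)) (h6 : e6 ∈ B) (h7 : e7 ∈ sat M (pid n J)) :
    e1 * e2 * e3 * e4 * e5 * e6 * e7 = 0 := by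
  have c0 : ∀ x ∈ J, ∀ y ∈ J, ∀ z ∈ J, ∀ w ∈ J, ∀ r1 s1 r3 s3 r5 s5 r7 s7 : R,
      (r1 * x ^ n * s1) * e2 * (r3 * y ^ n * s3) * e4 * (r5 * z ^ n * s5) * e6 *
        (r7 * w ^ n * s7) = 0 := by
    intro x hx y hy z hz w hw r1 s1 r3 s3 r5 s5 r7 s7
    have k1 := hcore R (n + 1) B J (by omega) h x hx y hy z hz w hw (s1 * e2 * r3)
      (h.right _ (h.left _ _ h2) _) (s3 * e4 * r5) (h.right _ (h.left _ _ h4) _)
      (s5 * e6 * r7) (h.right _ (h.left _ _ h6) _)
    rw [Nat.add_sub_cancel] at k1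
    have k2 : (r1 * x ^ n * s1) * e2 * (r3 * y ^ n * s3) * e4 * (r5 * z ^ n * s5) * e6 *
        (r7 * w ^ n * s7) = r1 * (x ^ n * (s1 * e2 * r3) * y ^ n * (s3 * e4 * r5) * z ^ n *
          (s5 * e6 * r7) * w ^ n) * s7 := by
      simp only [mul_assoc]
    rw [k2, k1, mul_zero, zero_mul]
  have key : ∀ f : R →+ R, (∀ x ∈ J, ∀ r s : R, f (r * x ^ n * s) = 0) →
      ∀ e ∈ pid n J, f e = 0 := by
    intro f hf e he
    have k1 : pid n J ≤ f.ker := by
      refine (AddSubgroup.closure_le _).2 ?_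
      rintro u ⟨r, x, hx, s, rfl⟩
      exact hf x hx r s
    exact k1 he
  have c1 : ∀ x ∈ J, ∀ y ∈ J, ∀ z ∈ J, ∀ r1 s1 r3 s3 r5 s5 : R, ∀ e7 ∈ pid n J,
      (r1 * x ^ n * s1) * e2 * (r3 * y ^ n * s3) * e4 * (r5 * z ^ n * s5) * e6 * e7 = 0 := by
    intro x hx y hy z hz r1 s1 r3 s3 r5 s5 e7 he7
    exact key (AddMonoidHom.mulLeft ((r1 * x ^ n * s1) * e2 * (r3 * y ^ n * s3) * e4 *
      (r5 * z ^ n * s5) * e6)) (fun w hw r7 s7 => c0 x hx y hy z hz w hw r1 s1 r3 s3 r5 s5 r7 s7)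
      e7 he7
  have c2 : ∀ x ∈ J, ∀ y ∈ J, ∀ r1 s1 r3 s3 : R, ∀ e7 ∈ pid n J, ∀ e5 ∈ pid n J,
      (r1 * x ^ n * s1) * e2 * (r3 * y ^ n * s3) * e4 * e5 * e6 * e7 = 0 := by
    intro x hx y hy r1 s1 r3 s3 e7 he7 e5 he5
    have k1 := key ((AddMonoidHom.mulRight e7).comp ((AddMonoidHom.mulRight e6).comp
      (AddMonoidHom.mulLeft ((r1 * x ^ n * s1) * e2 * (r3 * y ^ n * s3) * e4))))
      (fun z hz r5 s5 => c1 x hx y hy z hz r1 s1 r3 s3 r5 s5 e7 he7) e5 he5
    exact k1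
  have c3 : ∀ x ∈ J, ∀ r1 s1 : R, ∀ e7 ∈ pid n J, ∀ e5 ∈ pid n J, ∀ e3 ∈ pid n J,
      (r1 * x ^ n * s1) * e2 * e3 * e4 * e5 * e6 * e7 = 0 := by
    intro x hx r1 s1 e7 he7 e5 he5 e3 he3
    have k1 := key ((AddMonoidHom.mulRight e7).comp ((AddMonoidHom.mulRight e6).comp
      ((AddMonoidHom.mulRight e5).comp ((AddMonoidHom.mulRight e4).comp
      (AddMonoidHom.mulLeft ((r1 * x ^ n * s1) * e2))))))
      (fun y hy r3 s3 => c2 x hx y hy r1 s1 r3 s3 e7 he7 e5 he5) e3 he3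
    exact k1
  have c4 : ∀ e7 ∈ pid n J, ∀ e5 ∈ pid n J, ∀ e3 ∈ pid n J, ∀ e1 ∈ pid n J,
      e1 * e2 * e3 * e4 * e5 * e6 * e7 = 0 := by
    intro e7 he7 e5 he5 e3 he3 e1 he1
    have k1 := key ((AddMonoidHom.mulRight e7).comp ((AddMonoidHom.mulRight e6).comp
      ((AddMonoidHom.mulRight e5).comp ((AddMonoidHom.mulRight e4).comp
      ((AddMonoidHom.mulRight e3).comp (AddMonoidHom.mulRight e2))))))
      (fun x hx r1 s1 => c3 x hx r1 s1 e7 he7 e5 he5 e3 he3) e1 he1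
    exact k1
  obtain ⟨k1, h1⟩ := h1
  obtain ⟨k3, h3⟩ := h3
  obtain ⟨k5, h5⟩ := h5
  obtain ⟨k7, h7⟩ := h7
  have k := c4 _ h7 _ h5 _ h3 _ h1
  refine tf_pow hM (k1 + k3 + k5 + k7) ?_
  rw [← k]
  simp only [smul_mul_assoc, mul_smul_comm, ← mul_smul]
  congr 1
  ring

end

/-- the first step: three elements -/
theorem three_zero {R : Type u} [Ring R] [StarRing R] {B J : AddSubgroup R} (h : Data 1 B J)
    {a b c : R} (ha : a ∈ B) (hb : b ∈ B) (hc : c ∈ B) : a * b * c = 0 := by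
  have h1 : ∀ u ∈ B, Star.star u = -u := by
    intro u hu
    have h2 := h.nil _ (h.tr u hu)
    rw [pow_one] at h2
    exact (neg_eq_of_add_eq_zero_right h2).symm
  have h2 : ∀ u ∈ B, ∀ v ∈ B, u * v = -(v * u) := by
    intro u hu v hv
    have h3 := h1 _ (h.left u v hv)
    rw [star_mul, h1 u hu, h1 v hv, neg_mul_neg] at h3
    rw [h3, neg_neg]
  have e1 : a * b * c = -(a * b * c) := by
    calc a * b * c = a * (b * c) := mul_assoc _ _ _
      _ = -(b * c * a) := h2 a ha _ (h.left b c hc)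
      _ = -(b * (c * a)) := by rw [mul_assoc]
      _ = c * a * b := by rw [h2 b hb _ (h.left c a ha), neg_neg]
      _ = c * (a * b) := mul_assoc _ _ _
      _ = -(a * b * c) := h2 c hc _ (h.left a b hb)
  refine h.tf _ ?_
  have e2 : ((2 * Nat.factorial 1 : ℕ) : ℤ) = 2 := by norm_num
  rw [e2, two_smul]
  nth_rewrite 1 [e1]
  exact neg_add_cancel _

theorem split {α : Type*} (m k : ℕ) (l : List α) (h : l.length = m + k) :
    ∃ l1 l2, l = l1 ++ l2 ∧ l1.length = m ∧ l2.length = k :=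
  ⟨l.take m, l.drop m, (List.take_append_drop m l).symm, by
    rw [List.length_take, h]
    omega, by
    rw [List.length_drop, h]
    omega⟩

/-- THE THEOREM for data -/
theorem main_data (hcore : CoreStmt.{u}) (n : ℕ) : ∀ (R : Type u) [Ring R] [StarRing R]
    (B J : AddSubgroup R), Data (n + 1) B J → ∀ l : List R, l.length = 3 * 7 ^ n →
      (∀ b ∈ l, b ∈ B) → l.prod = 0 := by
  induction n with
  | zero =>
    intro R _ _ B J h l hl hb
    match l, hl, hb with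
    | [a, b, c], _, hb =>
      have h1 := three_zero h (hb a (by simp)) (hb b (by simp)) (hb c (by simp))
      simp only [List.prod_cons, List.prod_nil, mul_one]
      rw [← mul_assoc]
      exact h1
  | succ n ih =>
    intro R _ _ B J h l hl hb
    set M : ℤ := ((2 * (n + 1 + 1).factorial : ℕ) : ℤ) with hM
    have hI : SIdeal (pid (n + 1) J) := sideal_pid (n + 1) h.sym
    have hN : SIdeal (sat M (pid (n + 1) J)) := sideal_sat M hI
    let N := sat M (pid (n + 1) J)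
    let _ := qstar N hN
    have hD : Data (n + 1) (B.map (pr N hN).toAddMonoidHom) (J.map (pr N hN).toAddMonoidHom) := by
      constructor
      · rintro r b ⟨b, hb, rfl⟩
        obtain ⟨r, rfl⟩ := pr_surj N hN r
        exact ⟨r * b, h.left r b hb, map_mul (pr N hN) _ _⟩
      · rintro b ⟨b, hb, rfl⟩ r
        obtain ⟨r, rfl⟩ := pr_surj N hN r
        exact ⟨b * r, h.right b hb r, map_mul (pr N hN) _ _⟩
      · rintro b ⟨b, hb, rfl⟩
        exact ⟨Star.star b, h.star b hb, (star_pr N hN b).symm⟩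
      · rintro b ⟨b, hb, rfl⟩
        exact ⟨b, h.le hb, rfl⟩
      · rintro b ⟨b, hb, rfl⟩
        refine (star_pr N hN b).trans ?_
        rw [h.sym b hb]
        rfl
      · rintro b ⟨b, hb, rfl⟩
        refine ⟨b + Star.star b, h.tr b hb, ?_⟩
        show pr N hN (b + Star.star b) = _
        rw [map_add]
        congr 1
        exact (star_pr N hN b).symm
      · rintro b ⟨b, hb, rfl⟩
        show (pr N hN b) ^ (n + 1) = 0
        rw [← map_pow, pr_zero]
        refine le_sat _ _ (AddSubgroup.subset_closure ⟨1, b, hb, 1, ?_⟩)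
        rw [one_mul, mul_one]
      · intro r hr
        obtain ⟨r, rfl⟩ := pr_surj N hN r
        rw [← map_zsmul, pr_zero] at hr
        rw [pr_zero]
        refine sat_sat 1 ?_
        have e1 : (M ^ 1) • r = ((n + 1 + 1 : ℕ) : ℤ) • (((2 * (n + 1).factorial : ℕ) : ℤ) • r) := by
          rw [pow_one, ← mul_smul, hM, ← Nat.cast_mul]
          congr 2
          rw [Nat.factorial_succ (n + 1)]
          ring
        rw [e1]
        exact N.zsmul_mem hr _
    have h1 : ∀ l : List R, l.length = 3 * 7 ^ n → (∀ b ∈ l, b ∈ B) → l.prod ∈ N := by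
      intro l hl hb
      rw [← pr_zero (h := hN), map_list_prod]
      refine ih (Q N hN) _ _ hD _ (by rw [List.length_map, hl]) ?_
      intro b hb'
      obtain ⟨b, hb2, rfl⟩ := List.mem_map.1 hb'
      exact ⟨b, hb b hb2, rfl⟩
    have hB : ∀ l : List R, l.length = 3 * 7 ^ n → (∀ b ∈ l, b ∈ B) → l.prod ∈ B := by
      intro l hl hb
      match l, hl, hb with
      | [], hl, _ =>
        have : 0 < 3 * 7 ^ n := by positivity
        simp at hl
      | a :: l, _, hb =>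
        rw [List.prod_cons]
        exact h.right a (hb a (by simp)) _
    have hpow : 3 * 7 ^ (n + 1) = 3 * 7 ^ n + (3 * 7 ^ n + (3 * 7 ^ n + (3 * 7 ^ n +
        (3 * 7 ^ n + (3 * 7 ^ n + 3 * 7 ^ n))))) := by ring
    rw [hpow] at hl
    obtain ⟨l1, l', rfl, hl1, hl⟩ := split _ _ l hl
    obtain ⟨l2, l', rfl, hl2, hl⟩ := split _ _ l' hl
    obtain ⟨l3, l', rfl, hl3, hl⟩ := split _ _ l' hl
    obtain ⟨l4, l', rfl, hl4, hl⟩ := split _ _ l' hl
    obtain ⟨l5, l', rfl, hl5, hl⟩ := split _ _ l' hl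
    obtain ⟨l6, l7, rfl, hl6, hl7⟩ := split _ _ l' hl
    have b1 : ∀ b ∈ l1, b ∈ B := fun b hb' => hb b (by simp [hb'])
    have b2 : ∀ b ∈ l2, b ∈ B := fun b hb' => hb b (by simp [hb'])
    have b3 : ∀ b ∈ l3, b ∈ B := fun b hb' => hb b (by simp [hb'])
    have b4 : ∀ b ∈ l4, b ∈ B := fun b hb' => hb b (by simp [hb'])
    have b5 : ∀ b ∈ l5, b ∈ B := fun b hb' => hb b (by simp [hb'])
    have b6 : ∀ b ∈ l6, b ∈ B := fun b hb' => hb b (by simp [hb'])
    have b7 : ∀ b ∈ l7, b ∈ B := fun b hb' => hb b (by simp [hb'])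
    have h7 := seven_zero hcore h (M := M) h.tf (h1 l1 hl1 b1) (hB l2 hl2 b2) (h1 l3 hl3 b3)
      (hB l4 hl4 b4) (h1 l5 hl5 b5) (hB l6 hl6 b6) (h1 l7 hl7 b7)
    simp only [List.prod_append]
    rw [← h7]
    simp only [mul_assoc]

end Pool.Agent.H.MP_e16c79_al.HS
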