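import Pool.Agent.H.MP_e16c79_al.HS.Defs

/-!
# MP_e16c79_al: quotients of rings with involution
-/

set_option autoImplicit false

namespace Pool.Agent.H.MP_e16c79_al.HS

universe u

variable {R : Type u} [Ring R] [StarRing R]

/-- an ideal stable under the involution -/
structure SIdeal (N : AddSubgroup R) : Prop where
  left : ∀ r : R, ∀ w ∈ N, r * w ∈ N
  right : ∀ w ∈ N, ∀ r : R, w * r ∈ N
  star : ∀ w ∈ N, Star.star w ∈ N

/-- the congruence -/
def con (N : AddSubgroup R) (h : SIdeal N) : RingCon R where
  r a b := a - b ∈ N
  iseqv := by
    constructor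
    · intro a
      show a - a ∈ N
      rw [sub_self]
      exact N.zero_mem
    · intro a b hab
      show b - a ∈ N
      rw [← neg_sub]
      exact N.neg_mem hab
    · intro a b c hab hbc
      show a - c ∈ N
      have e : a - c = (a - b) + (b - c) := by abel
      rw [e]
      exact N.add_mem hab hbc
  add' := by
    intro a b c d hab hcd
    show (a + c) - (b + d) ∈ N
    have e : (a + c) - (b + d) = (a - b) + (c - d) := by abel
    rw [e]
    exact N.add_mem hab hcd
  mul' := by
    intro a b c d hab hcd
    show a * c - b * d ∈ N
    have e : a * c - b * d = (a - b) * c + b * (c - d) := by noncomm_ring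
    rw [e]
    exact N.add_mem (h.right _ hab c) (h.left b _ hcd)

/-- the quotient ring -/
abbrev Q (N : AddSubgroup R) (h : SIdeal N) := (con N h).Quotient

/-- the projection -/
def pr (N : AddSubgroup R) (h : SIdeal N) : R →+* Q N h := (con N h).mk'

theorem pr_surj (N : AddSubgroup R) (h : SIdeal N) : Function.Surjective (pr N h) :=
  (con N h).mk'_surjective

theorem pr_eq {N : AddSubgroup R} {h : SIdeal N} {a b : R} : pr N h a = pr N h b ↔ a - b ∈ N := by
  show ((a : Q N h) = (b : Q N h)) ↔ _
  rw [RingCon.eq]
  rfl

theorem pr_zero {N : AddSubgroup R} {h : SIdeal N} {a : R} : pr N h a = 0 ↔ a ∈ N := by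
  rw [← map_zero (pr N h), pr_eq, sub_zero]

/-- the involution of the quotient -/
@[reducible] noncomputable def qstar (N : AddSubgroup R) (h : SIdeal N) : StarRing (Q N h) where
  star := fun x => pr N h (Star.star (Function.surjInv (pr_surj N h) x))
  star_involutive := by
    intro x
    obtain ⟨a, rfl⟩ := pr_surj N h x
    have key : ∀ a : R, pr N h (Star.star (Function.surjInv (pr_surj N h) (pr N h a))) =
        pr N h (Star.star a) := by
      intro a
      rw [pr_eq, ← star_sub]
      refine h.star _ ?_
      rw [← pr_eq (h := h)]
      exact Function.surjInv_eq _ _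
    show pr N h (Star.star (Function.surjInv (pr_surj N h)
      (pr N h (Star.star (Function.surjInv (pr_surj N h) (pr N h a)))))) = _
    rw [key, ]
    have h1 := key a
    rw [pr_eq] at h1
    rw [pr_eq]
    have h2 := h.star _ h1
    rw [star_sub, star_star a] at h2
    exact h2
  star_mul := by
    intro x y
    obtain ⟨a, rfl⟩ := pr_surj N h x
    obtain ⟨b, rfl⟩ := pr_surj N h y
    have key : ∀ a : R, pr N h (Star.star (Function.surjInv (pr_surj N h) (pr N h a))) =
        pr N h (Star.star a) := by
      intro a
      rw [pr_eq, ← star_sub]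
      refine h.star _ ?_
      rw [← pr_eq (h := h)]
      exact Function.surjInv_eq _ _
    show pr N h (Star.star (Function.surjInv (pr_surj N h) (pr N h a * pr N h b))) =
      pr N h (Star.star (Function.surjInv (pr_surj N h) (pr N h b))) *
      pr N h (Star.star (Function.surjInv (pr_surj N h) (pr N h a)))
    rw [← map_mul, key, key, key, star_mul, map_mul]
  star_add := by
    intro x y
    obtain ⟨a, rfl⟩ := pr_surj N h x
    obtain ⟨b, rfl⟩ := pr_surj N h y
    have key : ∀ a : R, pr N h (Star.star (Function.surjInv (pr_surj N h) (pr N h a))) =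
        pr N h (Star.star a) := by
      intro a
      rw [pr_eq, ← star_sub]
      refine h.star _ ?_
      rw [← pr_eq (h := h)]
      exact Function.surjInv_eq _ _
    show pr N h (Star.star (Function.surjInv (pr_surj N h) (pr N h a + pr N h b))) =
      pr N h (Star.star (Function.surjInv (pr_surj N h) (pr N h a))) +
      pr N h (Star.star (Function.surjInv (pr_surj N h) (pr N h b)))
    rw [← map_add, key, key, key, star_add, map_add]

theorem star_pr (N : AddSubgroup R) (h : SIdeal N) (a : R) :
    letI := qstar N h
    Star.star (pr N h a) = pr N h (Star.star a) := by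
  show pr N h (Star.star (Function.surjInv (pr_surj N h) (pr N h a))) = pr N h (Star.star a)
  rw [pr_eq, ← star_sub]
  refine h.star _ ?_
  rw [← pr_eq (h := h)]
  exact Function.surjInv_eq _ _

end Pool.Agent.H.MP_e16c79_al.HS
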